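import Mathlib
import Pool.Agent.Q76.EffortFinal

/-!
# MP_030830_an, Q1: the optimal periodic effort is monotone in the effort budget

`IsControl right T` is the class `𝓜(T)`: nondecreasing functions `α` on the line with `α 0 = 0` and
`α (t + T) = α t + α T`, normalised to be right-continuous (`right = true`) or left-continuous
(`right = false`); the measure of `[t, s)` is `α s - α t`. The theorem is proved for both
normalisations. `cost` is the averaged weighted state `(1/T) ∫₀ᵀ w S_α`.

Whenever the minimisation problem has exactly one minimiser for every budget `η > 0`, the unique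
minimisers for budgets `η₁ < η₂` satisfy `α₁ s - α₁ t ≤ α₂ s - α₂ t` for all `t < s`: the optimal
effort measures increase with the budget. (That `c` is not almost everywhere zero and that `w` is
integrable on a period are consequences of the uniqueness and need not be assumed.)
-/

namespace Pool.Agent.Results.MP_030830_an.MonotoneOptimalEffort

open MeasureTheory Set Filter Topology Function

/-- The class `𝓜(T)` of controls, with the right-continuous (`right = true`) or the left-continuous
(`right = false`) normalisation. -/
structure IsControl (right : Bool) (T : ℝ) (α : ℝ → ℝ) : Prop where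
  mono : Monotone α
  cont : ∀ t, ContinuousWithinAt α (if right then Ici t else Iic t) t
  zero : α 0 = 0
  period : ∀ t, α (t + T) = α t + α T

/-- The `T`-periodic state `S_α` on `[0, T)`. -/
noncomputable def state (T δ : ℝ) (c α : ℝ → ℝ) (t : ℝ) : ℝ :=
  Real.exp (-α t - δ * t) / (1 - Real.exp (-α T - δ * T)) *
    ((∫ r in (0 : ℝ)..t, c r * Real.exp (α r + δ * r)) +
      Real.exp (-α T - δ * T) * ∫ r in t..T, c r * Real.exp (α r + δ * r))

/-- The cost `(1/T) ∫₀ᵀ w(t) S_α(t) dt`. -/
noncomputable def cost (T δ : ℝ) (c w α : ℝ → ℝ) : ℝ :=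
  1 / T * ∫ t in (0 : ℝ)..T, w t * state T δ c α t

/-- `α` minimises the cost among the controls with effort budget `α T / T = η`. -/
def IsOptimal (right : Bool) (T δ : ℝ) (c w : ℝ → ℝ) (η : ℝ) (α : ℝ → ℝ) : Prop :=
  (IsControl right T α ∧ α T / T = η) ∧
    ∀ β, IsControl right T β → β T / T = η → cost T δ c w α ≤ cost T δ c w β

open Q76.Effort in
/-- Every nondecreasing quasi-periodic function has a normalised representative. -/
lemma exists_rep (right : Bool) {T : ℝ} {β : ℝ → ℝ} (hβ : Ctrl T β) :
    ∃ β' k, IsControl right T β' ∧ β' T = β T ∧ ∀ᵐ r, β' r = β r - k := by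
  have hae : ∀ᵐ r : ℝ, ContinuousAt β r :=
    (hβ.mono.countable_not_continuousAt).ae_notMem volume |>.mono fun r hr => by
      simpa using hr
  cases right with
  | true =>
    have hper : ∀ t, rightLim β (t + T) = rightLim β t + β T := by
      intro t
      apply rightLim_eq_of_tendsto
      have h1 : Tendsto (fun r : ℝ => r - T) (𝓝[>] (t + T)) (𝓝[>] t) := by
        apply tendsto_nhdsWithin_of_tendsto_nhds_of_eventually_within
        · have : Tendsto (fun r : ℝ => r - T) (𝓝 (t + T)) (𝓝 (t + T - T)) :=
            (continuous_id.sub continuous_const).tendsto _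
          rw [add_sub_cancel_right] at this
          exact this.mono_left nhdsWithin_le_nhds
        · filter_upwards [self_mem_nhdsWithin] with r hr
          have : t + T < r := hr
          show t < r - T
          linarith
      have h2 := ((hβ.mono.tendsto_rightLim t).comp h1).add_const (β T)
      refine h2.congr fun r => ?_
      have := hβ.per (r - T)
      rw [sub_add_cancel] at this
      exact this.symm
    refine ⟨fun t => rightLim β t - rightLim β 0, rightLim β 0, ⟨?_, ?_, ?_, ?_⟩, ?_, ?_⟩
    · intro x y hxy
      show rightLim β x - rightLim β 0 ≤ rightLim β y - rightLim β 0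
      linarith [hβ.mono.rightLim hxy]
    · intro t
      have h := continuousWithinAt_rightLim_Ici (hβ.mono.tendsto_rightLim t)
      exact h.sub continuousWithinAt_const
    · show rightLim β 0 - rightLim β 0 = 0
      ring
    · intro t
      have h := hper 0
      rw [zero_add] at h
      show rightLim β (t + T) - rightLim β 0 = rightLim β t - rightLim β 0 +
        (rightLim β T - rightLim β 0)
      rw [hper, h]
      ring
    · have h := hper 0
      rw [zero_add] at h
      show rightLim β T - rightLim β 0 = β T
      rw [h]
      ring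
    · filter_upwards [hae] with r hr
      have : rightLim β r = β r := hr.continuousWithinAt.rightLim_eq
      show rightLim β r - rightLim β 0 = β r - rightLim β 0
      rw [this]
  | false =>
    have hper : ∀ t, leftLim β (t + T) = leftLim β t + β T := by
      intro t
      apply leftLim_eq_of_tendsto
      have h1 : Tendsto (fun r : ℝ => r - T) (𝓝[<] (t + T)) (𝓝[<] t) := by
        apply tendsto_nhdsWithin_of_tendsto_nhds_of_eventually_within
        · have : Tendsto (fun r : ℝ => r - T) (𝓝 (t + T)) (𝓝 (t + T - T)) :=
            (continuous_id.sub continuous_const).tendsto _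
          rw [add_sub_cancel_right] at this
          exact this.mono_left nhdsWithin_le_nhds
        · filter_upwards [self_mem_nhdsWithin] with r hr
          have : r < t + T := hr
          show r - T < t
          linarith
      have h2 := ((hβ.mono.tendsto_leftLim t).comp h1).add_const (β T)
      refine h2.congr fun r => ?_
      have := hβ.per (r - T)
      rw [sub_add_cancel] at this
      exact this.symm
    refine ⟨fun t => leftLim β t - leftLim β 0, leftLim β 0, ⟨?_, ?_, ?_, ?_⟩, ?_, ?_⟩
    · intro x y hxy
      show leftLim β x - leftLim β 0 ≤ leftLim β y - leftLim β 0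
      linarith [hβ.mono.leftLim hxy]
    · intro t
      have h := continuousWithinAt_leftLim_Iic (hβ.mono.tendsto_leftLim t)
      exact h.sub continuousWithinAt_const
    · show leftLim β 0 - leftLim β 0 = 0
      ring
    · intro t
      have h := hper 0
      rw [zero_add] at h
      show leftLim β (t + T) - leftLim β 0 = leftLim β t - leftLim β 0 +
        (leftLim β T - leftLim β 0)
      rw [hper, h]
      ring
    · have h := hper 0
      rw [zero_add] at h
      show leftLim β T - leftLim β 0 = β T
      rw [h]
      ring
    · filter_upwards [hae] with r hr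
      have : leftLim β r = β r := hr.continuousWithinAt.leftLim_eq
      show leftLim β r - leftLim β 0 = β r - leftLim β 0
      rw [this]

/-- **Monotonicity of the optimal effort in the budget.** -/
theorem result (right : Bool) {T δ : ℝ} (hT : 0 < T) (hδ : 0 < δ) {c w : ℝ → ℝ}
    (hc : ∀ t, 0 ≤ c t) (hcper : Periodic c T) (hcint : IntegrableOn c (Icc 0 T))
    (hw : ∀ t, 0 ≤ w t) (hwper : Periodic w T)
    (huniq : ∀ η > 0, ∃! α, IsOptimal right T δ c w η α)
    {η₁ η₂ : ℝ} (h₁ : 0 < η₁) (h₁₂ : η₁ < η₂) {α₁ α₂ : ℝ → ℝ}
    (hα₁ : IsOptimal right T δ c w η₁ α₁) (hα₂ : IsOptimal right T δ c w η₂ α₂)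
    {t s : ℝ} (hts : t < s) : α₁ s - α₁ t ≤ α₂ s - α₂ t := by
  have hci : IntervalIntegrable c volume 0 T := by
    rw [intervalIntegrable_iff_integrableOn_Icc_of_le hT.le]
    exact hcint
  have key : ∀ {x y : ℝ}, x ≤ y →
      rightLim α₁ y - leftLim α₁ x ≤ rightLim α₂ y - leftLim α₂ x := fun hxy =>
    Q76.Effort.main_abstract hT hδ hc hcper hci hw hwper (IsControl right T)
      (fun β hβ => ⟨hβ.mono, hβ.zero, hβ.period⟩) (fun β hβ => exists_rep right hβ)
      (fun β hβ hcont => ⟨hβ.mono, fun _ => hcont.continuousWithinAt, hβ.zero, hβ.per⟩)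
      huniq h₁ h₁₂ hα₁ hα₂ hxy
  have hm1 := hα₁.1.1.mono
  have hm2 := hα₂.1.1.mono
  cases right with
  | true =>
    have c1 : ∀ y, ContinuousWithinAt α₁ (Ici y) y := fun y => hα₁.1.1.cont y
    have c2 : ∀ y, ContinuousWithinAt α₂ (Ici y) y := fun y => hα₂.1.1.cont y
    have e1 : rightLim α₁ s = α₁ s := (c1 s).rightLim_eq
    have e2 : rightLim α₂ s = α₂ s := (c2 s).rightLim_eq
    have hlim : Tendsto (fun x => α₁ x + (α₂ s - α₂ t)) (𝓝[>] t) (𝓝 (α₁ t + (α₂ s - α₂ t))) :=
      (((c1 t).mono Ioi_subset_Ici_self).tendsto).add_const _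
    have := ge_of_tendsto hlim (b := α₁ s) (by
      filter_upwards [Ioo_mem_nhdsGT hts] with x hx
      have k := key hx.2.le
      rw [e1, e2] at k
      have a1 := hm1.leftLim_le (le_refl x)
      have a2 := hm2.le_leftLim hx.1
      linarith)
    linarith
  | false =>
    have c1 : ∀ y, ContinuousWithinAt α₁ (Iic y) y := fun y => hα₁.1.1.cont y
    have c2 : ∀ y, ContinuousWithinAt α₂ (Iic y) y := fun y => hα₂.1.1.cont y
    have e1 : leftLim α₁ t = α₁ t := (c1 t).leftLim_eq
    have e2 : leftLim α₂ t = α₂ t := (c2 t).leftLim_eq
    have hlim : Tendsto α₁ (𝓝[<] s) (𝓝 (α₁ s)) := ((c1 s).mono Iio_subset_Iic_self).tendsto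
    have := le_of_tendsto hlim (b := α₁ t + (α₂ s - α₂ t)) (by
      filter_upwards [Ioo_mem_nhdsLT hts] with x hx
      have k := key hx.1.le
      rw [e1, e2] at k
      have a1 := hm1.le_rightLim (le_refl x)
      have a2 := hm2.rightLim_le hx.2
      linarith)
    linarith

end Pool.Agent.Results.MP_030830_an.MonotoneOptimalEffort
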